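import Pool.Agent.N436.DF.Stm

/-!
# Project DF, part 4: transfer of colourings (helper2)
-/

set_option autoImplicit false

open Finset
open Pool.Agent.N436.DF

namespace Pool.Agent.N2.DF

variable {V : Type} [DecidableEq V]

omit [DecidableEq V] in
theorem load_nonneg (H : Hub V) (hr : ∀ u v, H.r u v = 0 ∨ H.r u v = 1) (S : Finset V) (f : V → Bool)
    (p : V → V → ℤ) (hp : ∀ u v, 0 ≤ p u v) (u : V) : 0 ≤ load H S f p u := by
  refine sum_nonneg fun v _ => ?_
  split_ifs
  · rcases hr u v with h | h <;> rw [h] <;> norm_num
  · exact hp u v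

theorem core (P : Par) (H : Hub V) (c : Bool → V → ℤ) (S : Finset V) (f : V → Bool)
    (p : V → V → ℤ) (v y : V) (hOk : Ok P H) (hv : v ∈ S) (hy : y ∈ S) (hr : H.r v y = 1)
    (hC : ColBy (delr ⟨c, H.r, H.m⟩ v y) S f p)
    (h1 : ∀ u, u ≠ v → u ≠ y → c (f u) u ≤ H.c (f u) u)
    (h2 : c (f v) v ≤ max (-1) (H.c (f v) v - 1)) (h3 : c (f y) y ≤ H.c (f y) y)
    (h4 : f y = f v → c (f y) y ≤ max (-1) (H.c (f y) y - 1)) : ColBy H S f p := by
  have hvy : v ≠ y := by
    rintro rfl
    rw [hOk.r0] at hr
    exact absurd hr (by norm_num)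
  have hnn : ∀ u, 0 ≤ load (delr ⟨c, H.r, H.m⟩ v y) S f p u := by
    refine fun u => load_nonneg _ ?_ S f p hC.nn u
    intro a b
    simp only [delr]
    split_ifs
    · left; rfl
    · exact hOk.r01 a b
  refine ⟨hC.nn, hC.pay, ?_⟩
  intro u hu
  have hcap := hC.cap u hu
  have h0 := hnn u
  have hcc : (delr (⟨c, H.r, H.m⟩ : Hub V) v y).c (f u) u = c (f u) u := rfl
  rw [hcc] at hcap
  by_cases huv : u = v
  · subst huv
    have hl : load H S f p u = load (delr ⟨c, H.r, H.m⟩ u y) S f p u +
        (if f u = f y then 1 else 0) := by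
      have h5 : (if f u = f y then (1 : ℤ) else 0) =
          ∑ w ∈ S, if w = y then (if f u = f y then (1 : ℤ) else 0) else 0 := by
        rw [sum_ite_eq' S y, if_pos hy]
      rw [h5, load, load, ← sum_add_distrib]
      refine sum_congr rfl fun w _ => ?_
      by_cases hw : w = y
      · subst hw
        simp only [delr]
        split_ifs <;> simp_all
      · simp [delr, hw, hvy]
    rw [hl]
    rcases max_choice (-1) (H.c (f u) u - 1) with hm | hm <;> rw [hm] at h2 <;> split_ifs <;> omega
  · by_cases huy : u = y
    · subst huy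
      have hru : H.r u v = 1 := by rw [hOk.rsymm]; exact hr
      have hl : load H S f p u = load (delr ⟨c, H.r, H.m⟩ v u) S f p u +
          (if f u = f v then 1 else 0) := by
        have h5 : (if f u = f v then (1 : ℤ) else 0) =
            ∑ w ∈ S, if w = v then (if f u = f v then (1 : ℤ) else 0) else 0 := by
          rw [sum_ite_eq' S v, if_pos hv]
        rw [h5, load, load, ← sum_add_distrib]
        refine sum_congr rfl fun w _ => ?_
        by_cases hw : w = v
        · subst hw
          simp only [delr]
          split_ifs <;> simp_all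
        · simp [delr, hw, huv]
      rw [hl]
      by_cases hfe : f u = f v
      · have h6 := h4 hfe
        rw [if_pos hfe]
        rcases max_choice (-1) (H.c (f u) u - 1) with hm | hm <;> rw [hm] at h6 <;> omega
      · rw [if_neg hfe]
        omega
    · have hl : load H S f p u = load (delr ⟨c, H.r, H.m⟩ v y) S f p u := by
        rw [load, load]
        refine sum_congr rfl fun w _ => ?_
        have hw2 : ¬ ((u = v ∧ w = y) ∨ (u = y ∧ w = v)) := by
          rintro (⟨h, _⟩ | ⟨h, _⟩)
          · exact huv h
          · exact huy h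
        simp only [delr, if_neg hw2]
      rw [hl]
      have := h1 u huv huy
      omega

theorem trPair : S_trPair := by
  intro V _ P H S i v y f p hOk hv hy hvy hfv hC
  have hnn : ∀ u, 0 ≤ load (addm (low H i v) (-1) v y) S f p u := fun u =>
    load_nonneg _ hOk.r01 S f p hC.nn u
  refine ⟨fun u w => p u w + if u = v ∧ w = y then 1 else 0, ?_, ?_, ?_⟩
  · intro u w
    have := hC.nn u w
    beta_reduce
    split_ifs <;> omega
  · intro u hu w hw hf
    have h1 := hC.pay u hu w hw hf
    simp only [addm, low] at h1
    beta_reduce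
    by_cases h2 : u = v ∧ w = y
    · rw [if_pos (Or.inl h2)] at h1
      rw [if_pos h2]
      split_ifs <;> omega
    · by_cases h3 : u = y ∧ w = v
      · rw [if_pos (Or.inr h3)] at h1
        rw [if_neg h2, if_pos ⟨h3.2, h3.1⟩]
        omega
      · rw [if_neg (by tauto)] at h1
        rw [if_neg h2, if_neg (by tauto)]
        omega
  · intro u hu
    have hcap := hC.cap u hu
    have h0 := hnn u
    by_cases huv : u = v
    · subst huv
      have hc : (addm (low H i u) (-1) u y).c (f u) u = max (-1) (H.c (f u) u - 1) := by
        simp [addm, low, hfv]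
      rw [hc] at hcap
      have hl : load H S f (fun u' w => p u' w + if u' = u ∧ w = y then 1 else 0) u ≤
          load (addm (low H i u) (-1) u y) S f p u + 1 := by
        have h5 : (1 : ℤ) = ∑ w ∈ S, if w = y then (1 : ℤ) else 0 := by
          rw [sum_ite_eq' S y, if_pos hy]
        rw [h5, load, load, ← sum_add_distrib]
        refine sum_le_sum fun w _ => ?_
        simp only [addm, low, true_and]
        split_ifs <;> omega
      rcases max_choice (-1) (H.c (f u) u - 1) with hm | hm <;> rw [hm] at hcap <;> omega
    · have hc : (addm (low H i v) (-1) v y).c (f u) u = H.c (f u) u := by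
        simp [addm, low, huv]
      rw [hc] at hcap
      have hl : load H S f (fun u' w => p u' w + if u' = v ∧ w = y then 1 else 0) u =
          load (addm (low H i v) (-1) v y) S f p u := by
        rw [load, load]
        refine sum_congr rfl fun w _ => ?_
        simp [addm, low, huv]
      rw [hl]
      exact hcap

theorem trReal : S_trReal := by
  intro V _ P H S i v y f p hOk hv hy hr hfv hC
  have hvy : v ≠ y := by
    rintro rfl
    rw [hOk.r0] at hr
    exact absurd hr (by norm_num)
  refine core P H (low (low H i v) i y).c S f p v y hOk hv hy hr hC ?_ ?_ ?_ ?_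
  · intro u h1 h2
    simp [low, h1, h2]
  · simp [low, hvy, hfv]
  · simp only [low, and_true]
    rw [if_neg (fun h : f y = i ∧ y = v => hvy h.2.symm)]
    have := hOk.c_ge (f y) y
    split_ifs
    · exact max_le this (by omega)
    · exact le_rfl
  · intro h
    have h2 : ¬ y = v := fun h => hvy h.symm
    simp [low, h2, h, hfv]

theorem trSoft : S_trSoft := by
  intro V _ P H S v y hOk hv hy hr hC
  obtain ⟨f, p, hC⟩ := hC
  have hvy : v ≠ y := by
    rintro rfl
    rw [hOk.r0] at hr
    exact absurd hr (by norm_num)
  have hyv : ¬ y = v := fun h => hvy h.symm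
  have h5 : (low (low (low (low H true v) false v) true y) false y).c (f y) y ≤
      max (-1) (H.c (f y) y - 1) := by
    cases h : f y <;> simp [low, hyv]
  refine ⟨f, p, core P H (low (low (low (low H true v) false v) true y) false y).c S f p v y hOk hv
    hy hr hC ?_ ?_ ?_ ?_⟩
  · intro u h1 h2
    simp [low, h1, h2]
  · cases h : f v <;> simp [low, hvy]
  · have := hOk.c_ge (f y) y
    exact h5.trans (max_le this (by omega))
  · intro _
    exact h5

end Pool.Agent.N2.DF
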